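import Pool.Agent.V5helper19.ER.Fin
import Pool.Agent.V5helper11.ER.TR
import Pool.Agent.V5helper11.ER.DC
import Pool.Agent.V5helper4.ER.CNT
import Pool.Agent.V5helper4.ER.BNP
import Pool.Agent.V5helper28.ER.DRB
import Pool.Agent.V5helper87.ER.OFF
import Pool.Agent.V5helper1.ER.FE
import Pool.Agent.V5helper87.ER.DT
import Pool.Agent.V5helper47.ER.P1
import Pool.Agent.V5helper47.ER.P2
import Pool.Agent.V5helper86.ER.P3
import Pool.Agent.V5helper87.ER.P4
import Pool.Agent.V5helper87.ER.R1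
import Pool.Agent.V5helper65.ER.DM1
import Pool.Agent.V5helper15.ER.DM2
import Pool.Agent.V5helper6.ER.X4
import Pool.Agent.V5helper68.ER.COR
import Pool.Agent.V5helper95.ER.KEY
import Pool.Agent.V5helper23.ER.LB
import Pool.Agent.V5helper28.ER.MAIN
import Pool.Agent.V5helper23.ER.SM
import Pool.Agent.V5helper3.ER.HYP
import Pool.Agent.V5helper62.ER.DA
import Pool.Agent.V5helper15.ER.ST1
import Pool.Agent.V5helper37.ER.ST2
import Pool.Agent.V5helper53.ER.CA
import Pool.Agent.V5helper6.ER.CB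

set_option autoImplicit false

namespace V5helper19.ER

theorem all_robust : ∃ n₀ : ℕ, ∀ n : ℕ, n₀ ≤ n → Robust (alternatingGroup (Fin n)) := by
  have hTR : S_TR := V5helper11.ER.t_TR
  have hDC : S_DC := V5helper11.ER.t_DC
  have hCNT : S_CNT := V5helper4.ER.t_CNT hTR
  have hBNP : S_BNP := V5helper4.ER.t_BNP
  have hDRB : S_DRB := V5helper28.ER.t_DRB
  have hOFF : S_OFF := V5helper87.ER.t_OFF
  have hFE : S_FE := Pool.Agent.V5helper1.ER.t_FE hOFF
  have hDT : S_DT := V5helper87.ER.t_DT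
  have hP1 : S_P1 := V5helper47.ER.t_P1
  have hP2 : S_P2 := V5helper47.ER.t_P2
  have hP3 : S_P3 := Pool.Agent.V5helper86.ER.t_P3
  have hP4 : S_P4 := V5helper87.ER.t_P4
  have hR1 : S_R1 := V5helper87.ER.t_R1 hP1 hP2 hP3 hP4
  have hDM1 : S_DM1 := V5helper65.ER.t_DM1 hFE hDT hP1 hP2 hP3 hP4
  have hDM2 : S_DM2 := V5helper15.ER.t_DM2 hDM1 hR1 hP3
  have hX4 : S_X4 := V5helper6.ER.t_X4 hTR
  have hCOR : S_COR := V5helper68.ER.t_COR hTR
  have hKEY : S_KEY := Pool.Agent.V5helper95.ER.t_KEY hTR hCOR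
  have hLB : S_LB := V5helper23.ER.t_LB hDC hCNT
  have hMAIN : S_MAIN := V5helper28.ER.M.t_MAIN hKEY hDC hLB hBNP hDRB hDM1 hDM2
  have hSM : S_SM := V5helper23.ER.t_SM hTR hX4
  have hHYP : S_HYP := Pool.Agent.V5helper3.ER.t_HYP hTR hDC hLB
  have hDA : S_DA := V5helper62.ER.t_DA hKEY hMAIN hSM hHYP
  have hST1 : S_ST1 := V5helper15.ER.t_ST1
  have hST2 : S_ST2 := V5helper37.ER.t_ST2
  have hCA : S_CA := V5helper53.ER.t_CA hTR hLB
  have hCB : S_CB := V5helper6.ER.t_CB hTR hDC hCNT hLB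
  exact robust_of_end hTR (t_END hDA hST1 hST2 hCA hCB)

end V5helper19.ER
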