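import Pool.Agent.V5helper19.ER.Stm2

set_option autoImplicit false
open Finset

namespace V5helper19.ER

/-- derangements of a permutation group -/
def DerS {n : ℕ} (H : Subgroup (Equiv.Perm (Fin n))) : Set H := {g | ∀ i, (g : Equiv.Perm (Fin n)) i ≠ i}

/-- the Cayley graph -/
def cay {H : Type} [Group H] (C : Set H) : SimpleGraph H := SimpleGraph.fromRel fun g h => g⁻¹ * h ∈ C

noncomputable def labels {H : Type} [Group H] (X : Set H) : ℕ := Set.ncard ((fun d => ({d, d⁻¹} : Set H)) '' X)

noncomputable def dmin {n : ℕ} (H : Subgroup (Equiv.Perm (Fin n))) : ℕ :=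
  sInf {m | ∃ i j : Fin n, i ≠ j ∧ m = labels {g : H | g ∈ DerS H ∧ (g : Equiv.Perm (Fin n)) i = j}}

def Robust {n : ℕ} (H : Subgroup (Equiv.Perm (Fin n))) : Prop :=
  ∀ D : Set H, D ⊆ DerS H → (∀ d ∈ D, d⁻¹ ∈ D) → labels D < dmin H →
    n * (cay (DerS H \ D)).indepNum = Nat.card H

theorem labels_eq {n : ℕ} (X : Finset (G n)) : labels (X : Set (G n)) = lab X := by
  classical
  rw [labels, lab]
  rw [← Set.ncard_coe_finset]
  have h : Function.Injective (fun s : Finset (G n) => (s : Set (G n))) := Finset.coe_injective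
  rw [← Set.ncard_image_of_injective _ h, Finset.coe_image, Set.image_image]
  congr 1
  ext s
  simp

theorem derS_eq {n : ℕ} : DerS (alternatingGroup (Fin n)) = (Der n : Set (G n)) := by
  ext g
  simp [DerS, Der]

theorem robust_of_end (hTR : S_TR) (hE : S_END) : ∃ n₀ : ℕ, ∀ n : ℕ, n₀ ≤ n → Robust (alternatingGroup (Fin n)) := by
  classical
  obtain ⟨n1, h1⟩ := hE
  refine ⟨n1 + 5, fun n hn D hD hinv hlab => ?_⟩
  obtain ⟨E, rfl⟩ : ∃ E : Finset (G n), (E : Set (G n)) = D := ⟨D.toFinite.toFinset, Set.Finite.coe_toFinset _⟩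
  have hn5 : 5 ≤ n := by omega
  have hcard : Nat.card (alternatingGroup (Fin n)) = Fintype.card (G n) := Nat.card_eq_fintype_card
  rw [hcard]
  rw [labels_eq] at hlab
  have hlt : ∀ i k : Fin n, i ≠ k → lab E < lab (DD i k) := by
    intro i k hik
    refine lt_of_lt_of_le hlab (Nat.sInf_le ⟨i, k, hik, ?_⟩)
    rw [← labels_eq]
    congr 1
    ext g
    rw [derS_eq]
    simp [DD]
  apply le_antisymm
  · -- upper bound
    obtain ⟨S, hS⟩ := (cay (DerS (alternatingGroup (Fin n)) \ (E : Set (G n)))).exists_isNIndepSet_indepNum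
    by_contra hcon
    push Not at hcon
    refine h1 n (by omega) E S ⟨?_, ?_, hlt, ?_, ?_⟩
    · intro d hd
      have := hD (Finset.mem_coe.2 hd)
      rw [derS_eq] at this
      exact_mod_cast this
    · intro d hd
      exact_mod_cast hinv d (Finset.mem_coe.2 hd)
    · intro x hx y hy hyE hxy
      have hind := hS.isIndepSet
      have hy1 : y ≠ 1 := by
        rintro rfl
        have := (Finset.mem_filter.1 hy).2 ⟨0, by omega⟩
        simp at this
      have hne : x ≠ x * y := by
        intro h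
        exact hy1 (by simpa using h.symm)
      apply hind (Finset.mem_coe.2 hx) (Finset.mem_coe.2 hxy) hne
      rw [cay, SimpleGraph.fromRel_adj]
      refine ⟨hne, Or.inl ?_⟩
      rw [inv_mul_cancel_left]
      refine ⟨?_, fun h => hyE (Finset.mem_coe.1 h)⟩
      rw [derS_eq]
      exact_mod_cast hy
    · rw [hS.card_eq]
      exact hcon
  · -- lower bound
    have i0 : Fin n := ⟨0, by omega⟩
    have hT := (hTR n hn5).1 i0 i0
    rw [← hT]
    apply Nat.mul_le_mul_left
    apply SimpleGraph.IsIndepSet.card_le_indepNum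
    intro x hx y hy hne hadj
    rw [cay, SimpleGraph.fromRel_adj] at hadj
    have hx' : (x : Equiv.Perm (Fin n)) i0 = i0 := (Finset.mem_filter.1 (Finset.mem_coe.1 hx)).2
    have hy' : (y : Equiv.Perm (Fin n)) i0 = i0 := (Finset.mem_filter.1 (Finset.mem_coe.1 hy)).2
    have hxi : Equiv.symm (x : Equiv.Perm (Fin n)) i0 = i0 := by
      rw [Equiv.symm_apply_eq]; exact hx'.symm
    have hyi : Equiv.symm (y : Equiv.Perm (Fin n)) i0 = i0 := by
      rw [Equiv.symm_apply_eq]; exact hy'.symm
    rcases hadj.2 with h | h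
    · exact h.1 i0 (by simp [hy', hxi])
    · exact h.1 i0 (by simp [hx', hyi])

end V5helper19.ER
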