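import Mathlib

/-!
# Project ER (MP_c6b05a_co): the alternating group `A_n` is EKR robust for all large `n` (full answer)

`G n = A_n`. `D` = inverse-closed set of derangements with fewer labels `{d, d⁻¹}` than every `D_{i→k}`; claim: for large `n`
every `S` without `x, x c ∈ S`, `c ∈ Der \ D`, has `n |S| ≤ |G|`. Idea: `f = 1_S`; the level 1 part of `f` is given by the
matrix `aa i j = |S ∩ T i j| n / |G|`, the rest `f2` is negligible because all representations of `A_n` beyond the permutation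
representation have dimension `≥ c n²`; this gives a quadratic inequality for the matrix `aa` and the matrix
`mm i k = |D ∩ D_{i→k}| (n-1) / |Der|`; the fourth moment of `∑ b i (x i)` shows that small entries do not contribute, and the large
entries must be in one column `l` and in one row (then `S` is nearly `T i l`) or two rows `i1, i2` (then `D` is nearly
`D_{i1→i2} ∪ D_{i2→i1}`); both cases are finished by exact arguments.
All jobs are elementary and independent. Constants may be changed: tell helper19.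
-/

set_option autoImplicit false
open Finset

namespace V5helper19.ER

/-- the alternating group of degree `n` -/
abbrev G (n : ℕ) : Type := alternatingGroup (Fin n)

/-- the elements which take `i` to `j` -/
def T {n : ℕ} (i j : Fin n) : Finset (G n) := univ.filter fun x => (x : Equiv.Perm (Fin n)) i = j

/-- the derangements -/
def Der (n : ℕ) : Finset (G n) := univ.filter fun x => ∀ i, (x : Equiv.Perm (Fin n)) i ≠ i

/-- the derangements which take `i` to `k` -/
def DD {n : ℕ} (i k : Fin n) : Finset (G n) := (Der n).filter fun x => (x : Equiv.Perm (Fin n)) i = k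

/-- the number of labels `{d, d⁻¹}` of the elements of `X` -/
def lab {n : ℕ} (X : Finset (G n)) : ℕ := (X.image fun d => ({d, d⁻¹} : Finset (G n))).card

/-- the situation to be excluded -/
structure Bad (n : ℕ) (D S : Finset (G n)) : Prop where
  der : ∀ d ∈ D, d ∈ Der n
  inv : ∀ d ∈ D, d⁻¹ ∈ D
  lab_lt : ∀ i k : Fin n, i ≠ k → lab D < lab (DD i k)
  ind : ∀ x ∈ S, ∀ y ∈ Der n, y ∉ D → x * y ∉ S
  big : Fintype.card (G n) < n * S.card

/-- the order of the group, as a real number -/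
noncomputable def NN (n : ℕ) : ℝ := Fintype.card (G n)

noncomputable def cc {n : ℕ} (S : Finset (G n)) : ℝ := n * S.card / NN n

noncomputable def aa {n : ℕ} (S : Finset (G n)) (i j : Fin n) : ℝ :=
  n * ((S.filter fun x : G n => (x : Equiv.Perm (Fin n)) i = j).card : ℝ) / NN n

/-- the centred matrix: row sums and column sums are zero -/
noncomputable def ab {n : ℕ} (S : Finset (G n)) (i j : Fin n) : ℝ := aa S i j - cc S / n

noncomputable def mm {n : ℕ} (D : Finset (G n)) (i k : Fin n) : ℝ :=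
  ((n : ℝ) - 1) * ((D.filter fun d : G n => (d : Equiv.Perm (Fin n)) i = k).card : ℝ) / (Der n).card

/-- the part of the indicator function of `S` beyond level 1 -/
noncomputable def f2 {n : ℕ} (S : Finset (G n)) (x : G n) : ℝ :=
  (if x ∈ S then 1 else 0) - (S.card / NN n + ∑ i, (((n : ℝ) - 1) / n) * ab S i ((x : Equiv.Perm (Fin n)) i))

noncomputable def QQ {n : ℕ} (D S : Finset (G n)) : ℝ :=
  ∑ i, ∑ l, ab S i l ^ 2 + ∑ i, ∑ k, mm D i k * ∑ l, ab S i l * ab S k l

/-- all sums over the sets `T i j` vanish -/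
def Van {n : ℕ} (w : G n → ℝ) : Prop := ∀ i j : Fin n, ∑ x ∈ T i j, w x = 0

/-- right and left invariance -/
def RI {H : Type} [Group H] (W : Submodule ℝ (H → ℝ)) : Prop := ∀ g : H, ∀ w ∈ W, (fun x => w (x * g)) ∈ W
def LI {H : Type} [Group H] (W : Submodule ℝ (H → ℝ)) : Prop := ∀ g : H, ∀ w ∈ W, (fun x => w (g * x)) ∈ W

/-! ## Counting -/

/-- **TR** (80 lines).  The sizes of `T i j` and of `T i j ∩ T i' j'`.
Proof. Left multiplication by a 3-cycle `(j j'' l)` maps `T i j` onto `T i j''`; the `T i j`, `j : Fin n`, partition the group.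
For the second: left multiplication by a 3-cycle `(j' j'' l)`, `l ∉ {j, j', j''}`, maps `T i j ∩ T i' j'` onto `T i j ∩ T i' j''`, and
`T i j` is the disjoint union of the `T i j ∩ T i' j'`, `j' ≠ j`. (Similarly for `Equiv.Perm (Fin n)`, third part.) -/
def S_TR : Prop := ∀ n : ℕ, 5 ≤ n →
  (∀ i j : Fin n, n * (T i j).card = Fintype.card (G n)) ∧
  (∀ i j i' j' : Fin n, i ≠ i' → j ≠ j' → n * (n - 1) * (T i j ∩ T i' j').card = Fintype.card (G n)) ∧
  (∀ i j : Fin n, n * (univ.filter fun x : Equiv.Perm (Fin n) => x i = j).card = n.factorial) ∧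
  (∀ i j i' j' : Fin n, i ≠ i' → j ≠ j' →
    n * (n - 1) * (univ.filter fun x : Equiv.Perm (Fin n) => x i = j ∧ x i' = j').card = n.factorial) ∧
  2 * Fintype.card (G n) = n.factorial

/-- **DC** (60 lines).  `|D_{i→k}| = |Der|/(n-1)` for `i ≠ k`.
Proof. For `k, k' ≠ i` choose an even permutation `g` with `g i = i`, `g k = k'` (3-cycle); conjugation by `g` maps `DD i k` onto
`DD i k'`; the `DD i k`, `k ≠ i`, partition `Der`. -/
def S_DC : Prop := ∀ n : ℕ, 5 ≤ n → ∀ i k : Fin n, i ≠ k → (n - 1) * (DD i k).card = (Der n).card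

/-- **CNT** (200 lines, hypothesis `S_TR`).  Many even permutations `r` with `r i = k` avoid both the identity and `d₀` everywhere.
Proof (switching). Let `A = T i k`, `bad r = {x ≠ i | r x = x ∨ r x = d₀ x}` (at `x = i` there is no condition: `k ≠ i`, `k ≠ d₀ i`).
`∑_{r ∈ A} |bad r| ≤ ∑_{x ≠ i} 2 |G|/(n (n-1)) = 2 |A|`, so at most half of the `r ∈ A` have `|bad r| ≥ 4`. Let
`N_b = #{r ∈ A : |bad r| = b}`. For `r` with `|bad r| = b`, `1 ≤ b ≤ 3`, `x₀ ∈ bad r` and `p ≠ q` outside `bad r ∪ {i}`, let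
`r' = r (x₀ p q)` (so `r' x₀ = r p`, `r' p = r q`, `r' q = r x₀`). If `r p ∉ {x₀, d₀ x₀}`, `r q ∉ {p, d₀ p}`, `r x₀ ∉ {q, d₀ q}` then
`bad r' = bad r \ {x₀}`; this excludes at most `6 n` pairs, so at least `n² - 16 n ≥ n²/2` pairs `(p, q)` are good.
Conversely `r'` and `(x₀, p, q)` determine `r`, and `r' q = r x₀ ∈ {x₀, d₀ x₀}`, so `r'` comes from at most `2 n²` triples.
So `N_b n²/2 ≤ 2 n² N_{b-1}`: `N_b ≤ 4 N_{b-1}`, `|A|/2 ≤ N_0 + .. + N_3 ≤ 85 N_0`. -/
def S_CNT : Prop := ∀ n : ℕ, 100 ≤ n → ∀ (i k : Fin n) (d₀ : G n), i ≠ k → (d₀ : Equiv.Perm (Fin n)) i ≠ k →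
  Fintype.card (G n) ≤ 170 * n * ((DD i k).filter fun r : G n => ∀ x, (r : Equiv.Perm (Fin n)) x ≠ (d₀ : Equiv.Perm (Fin n)) x).card

/-! ## Spectral estimates (any finite group) -/

/-- **BNP** (150 lines).  (Babai-Nikolov-Pyber.)  Proof. For `h ∈ V` let `K v = ∑_d ⟨v, R_d h⟩ R_d h` on `V`, `(R_d h)(x) = h (x d)`,
`⟨u, v⟩ = ∑_x u x v x`. `K` is symmetric, positive semidefinite, its trace is `∑_d ‖R_d h‖² = |H| ‖h‖²`, and it commutes with all
`R_g` (`⟨v, R_{g⁻¹ e} h⟩ = ⟨R_g v, R_e h⟩`). Let `μ` be its largest eigenvalue; the eigenspace is right invariant, so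
`m μ ≤ trace = |H| ‖h‖²`, and `∑_d ⟨h, R_d h⟩² = ⟨h, K h⟩ ≤ μ ‖h‖²`. (`LinearMap.IsSymmetric.eigenvectorBasis` etc. on `V` with the
inner product of `EuclideanSpace ℝ H`.) -/
def S_BNP : Prop := ∀ (H : Type) [Group H] [Fintype H] (V : Submodule ℝ (H → ℝ)) (m : ℕ), RI V →
  (∀ W : Submodule ℝ (H → ℝ), W ≤ V → W ≠ ⊥ → RI W → m ≤ Module.finrank ℝ W) →
  ∀ h ∈ V, (m : ℝ) * ∑ d, (∑ x, h x * h (x * d)) ^ 2 ≤ Fintype.card H * (∑ x, h x ^ 2) ^ 2

/-- **DRB** (150 lines).  The same for a class function.  Proof. `A v = ∑_{d ∈ Δ} R_d v` is symmetric (`Δ⁻¹ = Δ`) and commutes with all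
left translations and (as `Δ` is a union of conjugacy classes) with all right translations. Let `μ` be an eigenvalue of `A` on `V` of
maximal absolute value: its eigenspace is two-sided invariant, so `m μ² ≤ tr (A|V)² ≤ tr A² = |H| |Δ|` (in the basis of the unit
functions, `A` is a 0-1 matrix with `|H| |Δ|` ones), and `|⟨h, A h⟩| ≤ |μ| ‖h‖²`. -/
def S_DRB : Prop := ∀ (H : Type) [Group H] [Fintype H] (V : Submodule ℝ (H → ℝ)) (m : ℕ), RI V → LI V →
  (∀ W : Submodule ℝ (H → ℝ), W ≤ V → W ≠ ⊥ → RI W → LI W → m ≤ Module.finrank ℝ W) →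
  ∀ Δ : Finset H, (∀ d ∈ Δ, d⁻¹ ∈ Δ) → (∀ d ∈ Δ, ∀ g : H, g * d * g⁻¹ ∈ Δ) →
  ∀ h ∈ V, (m : ℝ) * (∑ d ∈ Δ, ∑ x, h x * h (x * d)) ^ 2 ≤ Fintype.card H * Δ.card * (∑ x, h x ^ 2) ^ 2

/-! ## Functions with small second differences -/

/-- **OFF** (60 lines).  Proof. Fix `r₀`; `β q = M q r₀` for `q ≠ r₀`; for `r ≠ r₀` the number `M q r - M q r₀` does not depend on
`q ∉ {r, r₀}` (use `q, q', r, r₀`), call it `γ r` (`γ r₀ = 0`); so `M q r = β q + γ r` for `q ≠ r₀`. Finally `M r₀ r - γ r` does not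
depend on `r ≠ r₀`: `M r₀ r - M r₀ r' = M q r - M q r' = γ r - γ r'` for `q ∉ {r₀, r, r'}`; call it `β r₀`. -/
def S_OFF : Prop := ∀ (X : Type) [Fintype X] [DecidableEq X], 5 ≤ Fintype.card X → ∀ M : X → X → ℝ,
  (∀ q q' r r' : X, q ≠ q' → r ≠ r' → q ≠ r → q ≠ r' → q' ≠ r → q' ≠ r' → M q r + M q' r' = M q r' + M q' r) →
  ∃ β γ : X → ℝ, ∀ q r, q ≠ r → M q r = β q + γ r

/-- second difference of `w` -/
def D2 {n : ℕ} (w : G n → ℝ) (z z' : G n) : Prop := ∀ x, w x - w (x * z) - w (x * z') + w (x * z * z') = 0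

/-- **FE** (250 lines, hypothesis `S_OFF`).
Proof. Let `z = (a b c)` be a 3-cycle (`a → b → c → a`), `h_abc x = w (x z) - w x`. By hypothesis `h_abc (x z') = h_abc x` for every
3-cycle `z'` disjoint from `z`; every even permutation which fixes `a, b, c` is a product of such 3-cycles
(`Equiv.Perm.closure_three_cycles_eq_alternating` on the subtype), so `h_abc x = F_abc (x a) (x b) (x c)`. From
`(a b c) = (a b d) (b c d)`: `F_abc p q r = F_bcd s r p + F_abd p q s` for all distinct `p, q, r, s` (evaluate `h_bcd` at `x (a b d)`).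
So for fixed `p, s` the left side is a function of `q` plus a function of `r`: the mixed differences of `F_abc` in `(q, r)` vanish
(for `p, q, q', r, r'` distinct, choosing `s` different from all of them), and, as `(a b c) = (b c a) = (c a b)`, in every pair of variables.
By OFF (on `{x // x ≠ p}`) `F_abc p q r = β_p q + γ_p r`; the mixed differences in `(p, q)` show that `β_p q` (a function of `p ≠ q`) has
vanishing mixed differences, so by OFF `β_p q = φ₁ p + ψ q`, and `γ_p r = φ₂ p + χ r`. So `h = h_abc` is a sum of three functions of one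
coordinate `x a`, `x b`, `x c`; `h` also satisfies `Van` (as `x ↦ x z` permutes the `T i j`), so `∑ h² = 0`, `h = 0`. So `w (x z) = w x` for
all 3-cycles, `w` is constant, and `Van` gives `w = 0`. -/
def S_FE : Prop := ∀ n : ℕ, 10 ≤ n → ∀ w : G n → ℝ, Van w →
  (∀ z z' : G n, (z : Equiv.Perm (Fin n)).IsThreeCycle → (z' : Equiv.Perm (Fin n)).IsThreeCycle →
    (z : Equiv.Perm (Fin n)).Disjoint z' → D2 w z z') → ∀ x, w x = 0

/-- `u` is the double transposition `(a b)(c d)` -/
def DTr {n : ℕ} (u : G n) (a b c d : Fin n) : Prop :=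
  [a, b, c, d].Nodup ∧ (u : Equiv.Perm (Fin n)) = Equiv.swap a b * Equiv.swap c d

/-- **DT** (80 lines).  From double transpositions to 3-cycles.
Proof. A 3-cycle `z` on `a, b, c` is `s t` with `s = (a b)(d e)`, `t = (b c)(d e)` (or in the other order), `d, e` any other points; the same
for `z' = s' t'` with `d', e'` such that the ten points are different (`n ≥ 10`). `1 - R_z = (1 - R_s) + R_s (1 - R_t)` etc.: expand; all the
second differences of `s, t` with `s', t'` vanish (also at translated points). -/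
def S_DT : Prop := ∀ n : ℕ, 10 ≤ n → ∀ w : G n → ℝ,
  (∀ (u v : G n) (a b c d a' b' c' d' : Fin n), DTr u a b c d → DTr v a' b' c' d' →
    [a, b, c, d, a', b', c', d'].Nodup → D2 w u v) →
  ∀ z z' : G n, (z : Equiv.Perm (Fin n)).IsThreeCycle → (z' : Equiv.Perm (Fin n)).IsThreeCycle →
    (z : Equiv.Perm (Fin n)).Disjoint z' → D2 w z z'

/-! ## Klein four-groups and dimensions -/

/-- the two double transpositions of the block `i` of an injection `e` of `m` blocks of four points -/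
def uu {n m : ℕ} (e : Fin m × Fin 4 ↪ Fin n) (i : Fin m) : Equiv.Perm (Fin n) :=
  Equiv.swap (e (i, 0)) (e (i, 1)) * Equiv.swap (e (i, 2)) (e (i, 3))
def vv {n m : ℕ} (e : Fin m × Fin 4 ↪ Fin n) (i : Fin m) : Equiv.Perm (Fin n) :=
  Equiv.swap (e (i, 0)) (e (i, 2)) * Equiv.swap (e (i, 1)) (e (i, 3))

def sg (b : Bool) : ℝ := if b then -1 else 1

/-- `w` is a joint eigenvector of the Klein four-groups of the blocks with the signs given by the colours `γ i`;
`(false, false)` is the trivial colour -/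
def IsCol {n m : ℕ} (e : Fin m × Fin 4 ↪ Fin n) (γ : Fin m → Bool × Bool) (w : G n → ℝ) : Prop :=
  ∀ i : Fin m, ∀ x y : G n,
    ((y : Equiv.Perm (Fin n)) = x * uu e i → w y = sg (γ i).1 * w x) ∧
    ((y : Equiv.Perm (Fin n)) = x * vv e i → w y = sg (γ i).2 * w x)

/-- the number of blocks with a non-trivial colour -/
def sup {m : ℕ} (γ : Fin m → Bool × Bool) : ℕ := (univ.filter fun i => γ i ≠ (false, false)).card

/-- **P1** (120 lines).  Existence of joint eigenvectors in a right invariant space.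
Proof. The operators `U_i w = w (· uu e i)`, `V_i` are commuting involutions (`uu`, `vv` are even: products of two transpositions; they
commute and have order 2). Starting with `w ≠ 0`, for each of them replace `w` by `w + U w` if this is not `0`, and otherwise keep `w` (then
`U w = -w`); the signs reached before are kept. (1): in this way. (2): start with `w' = w - R_x w - R_y w + R_{xy} w ≠ 0`, which has
`R_x w' = -w'`, `R_y w' = -w'`, `x = uu e i₀`, `y = uu e i₁`: the joint eigenvector is a nonzero projection of `w'`, so `R_x = R_y = -1` on it,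
so the colours of `i₀ ≠ i₁` are not trivial. -/
def S_P1 : Prop := ∀ (n m : ℕ) (e : Fin m × Fin 4 ↪ Fin n) (W : Submodule ℝ (G n → ℝ)), RI W →
  (W ≠ ⊥ → ∃ γ, ∃ w ∈ W, w ≠ 0 ∧ IsCol e γ w) ∧
  (∀ (w : G n → ℝ) (i₀ i₁ : Fin m) (x y : G n), w ∈ W → i₀ ≠ i₁ → (x : Equiv.Perm (Fin n)) = uu e i₀ →
    (y : Equiv.Perm (Fin n)) = uu e i₁ → ¬ D2 w x y → ∃ γ, ∃ w' ∈ W, w' ≠ 0 ∧ IsCol e γ w' ∧ 2 ≤ sup γ) ∧
  (∀ (w : G n → ℝ) (i₀ : Fin m) (x : G n), w ∈ W → (x : Equiv.Perm (Fin n)) = uu e i₀ →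
    (∃ t, w (t * x) ≠ w t) → ∃ γ, ∃ w' ∈ W, w' ≠ 0 ∧ IsCol e γ w' ∧ 1 ≤ sup γ)

/-- **P2** (180 lines).  The symmetry.
Proof. (a) If `g` is an even permutation with `g ∘ e = e'` (exists: extend, correct the parity with two points outside the image of `e`) then
`w' x = w (x g)` is in `W` and `IsCol e' γ w'`, as `g⁻¹ (uu e' i) g = uu e i`. (b) `IsCol e γ w` implies `IsCol e' (γ ∘ σ) w` for
`e' (i, r) = e (σ i, r)`. (c) exchanging the labels 1 and 2 of a block exchanges `uu` and `vv`, so the colour `(a, b)` becomes `(b, a)`;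
exchanging the labels 2 and 3 fixes `uu` and changes `vv` to `uu vv`, the colour `(a, b)` becomes `(a, xor a b)`. These two maps are
transitive on the three non-trivial colours. Now choose `σ` which maps the non-trivial blocks of `γ'` to the ones of `γ`. -/
def S_P2 : Prop := ∀ (n m : ℕ), 4 * m + 2 ≤ n → ∀ (e e' : Fin m × Fin 4 ↪ Fin n) (W : Submodule ℝ (G n → ℝ)), RI W →
  ∀ γ γ' : Fin m → Bool × Bool, sup γ = sup γ' → (∃ w ∈ W, w ≠ 0 ∧ IsCol e γ w) → ∃ w ∈ W, w ≠ 0 ∧ IsCol e' γ' w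

/-- **P3** (100 lines).  Orthogonality: joint eigenvectors for different colourings are orthogonal (`∑_x w x w' x` is invariant
under `x ↦ x u`), so the sum of the `W_γ` is direct. -/
def S_P3 : Prop := ∀ (n m : ℕ) (e : Fin m × Fin 4 ↪ Fin n) (W : Submodule ℝ (G n → ℝ)) (Γ : Finset (Fin m → Bool × Bool))
  (U : (Fin m → Bool × Bool) → Submodule ℝ (G n → ℝ)) (k : ℕ),
  (∀ γ ∈ Γ, U γ ≤ W ∧ k ≤ Module.finrank ℝ (U γ) ∧ ∀ w ∈ U γ, IsCol e γ w) → k * Γ.card ≤ Module.finrank ℝ W

/-- **P4** (60 lines).  Counting colourings.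
Proof. For `i < j` let the set `T_ij` consist of `i, j` and `t - 2` other blocks, coloured `(true, true)` on `i, j` and `(true, false)` on the
others: the pair can be read off. The same with one `i`. -/
def S_P4 : Prop := ∀ m t : ℕ, t ≤ m →
  (2 ≤ t → m.choose 2 ≤ (univ.filter fun γ : Fin m → Bool × Bool => sup γ = t).card) ∧
  (1 ≤ t → m ≤ (univ.filter fun γ : Fin m → Bool × Bool => sup γ = t).card)

/-- **R1** (80 lines, hypotheses `S_P1 S_P2 S_P3 S_P4`).  A right invariant space which contains a non-constant function has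
dimension at least `(n - 5)/4`. Proof. Some `w ∈ W` is not constant, so `w (t x) ≠ w t` for some double transposition `x` (they generate
`A_n`), which is `uu e i₀` for a suitable `e` (`m = (n-2)/4` blocks); P1 (3), P2, P4, P3 with `U γ` the span of one vector. -/
def S_R1 : Prop := ∀ n : ℕ, 20 ≤ n → ∀ W : Submodule ℝ (G n → ℝ), RI W → (∃ w ∈ W, ∃ x y, w x ≠ w y) →
  (n : ℝ) - 5 ≤ 4 * Module.finrank ℝ W

/-- **DM1** (100 lines, hypotheses `S_FE S_DT S_P1 S_P2 S_P3 S_P4`).
Proof. `W` contains `w ≠ 0`; by FE and DT there are double transpositions `u = (a b)(c d)`, `v = (a' b')(c' d')` on eight different points with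
`¬ D2 w u v`; choose an injection `e` of `m = (n-2)/4` blocks with `uu e i₀ = u`, `uu e i₁ = v`. P1 (2) gives `γ` with `t = sup γ ≥ 2`, P2 all
the colourings with `sup = t`, P4 and P3: the dimension is at least `m.choose 2 ≥ n²/100` for large `n`. The second statement is needed for
DM2. -/
def S_DM1 : Prop := ∃ n₀ : ℕ, ∀ n : ℕ, n₀ ≤ n → ∀ W : Submodule ℝ (G n → ℝ), W ≠ ⊥ → RI W → (∀ w ∈ W, Van w) →
  (n : ℝ) ^ 2 ≤ 100 * Module.finrank ℝ W ∧
  ∃ (m : ℕ) (e : Fin m × Fin 4 ↪ Fin n) (Γ : Finset (Fin m → Bool × Bool)), (n : ℝ) ^ 2 ≤ 100 * Γ.card ∧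
    ∀ γ ∈ Γ, 1 ≤ sup γ ∧ ∃ w ∈ W, w ≠ 0 ∧ IsCol e γ w

/-- **DM2** (100 lines, hypotheses `S_DM1 S_R1 S_P3`).
Proof. For the `γ ∈ Γ` of DM1 let `U γ = {w ∈ W | IsCol e γ w}`: a left invariant subspace, not zero, without nonzero constants (the colour of
some block is not trivial, so `w (x u) = - w x` or `w (x v) = - w x`). By R1 for the space of the `x ↦ w x⁻¹`, `w ∈ U γ`, its dimension is
at least `(n-5)/4`. P3. -/
def S_DM2 : Prop := ∃ n₀ : ℕ, ∀ n : ℕ, n₀ ≤ n → ∀ W : Submodule ℝ (G n → ℝ), W ≠ ⊥ → RI W → LI W → (∀ w ∈ W, Van w) →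
  (n : ℝ) ^ 3 ≤ 1000 * Module.finrank ℝ W

end V5helper19.ER
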