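import Pool.Agent.V5helper19.ER.Stm

/-!
# Project ER, part 2
-/

set_option autoImplicit false
open Finset

namespace V5helper19.ER

/-- **X4** (150 lines, hypothesis `S_TR`).  Fourth moment of `∑ b i (x i)` for a random permutation.
Proof. `Z = ∑ b i (x i)`, `m = (∑ b)/n`, `X = Z - m`, `τ = swap i j`. `∑_{i,j} (Z x - Z (x τ)) = 2 n Z - 2 ∑ b = 2 n X` (all `i, j`, also
equal ones: `Z x - Z (x τ) = b i (x i) + b j (x j) - b i (x j) - b j (x i)`). So, writing `X'` for `X (x τ)` and symmetrizing `x ↦ x τ`,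
`∑_x X⁴ = (1/(4n)) ∑_{i,j} ∑_x (X³ - X'³)(X - X') ≤ (3/(8n)) ∑ ∑ (X² + X'²)(X - X')² = (3/(4n)) ∑_{i,j} ∑_x X² (X - X')²`
(`(p³ - q³)(p - q) ≤ (3/2)(p² + q²)(p - q)²`), and `∑_{i,j} (X - X')² ≤ 8 n Y + 8 σ`, `Y = ∑ b i (x i)²`, `σ = ∑ b²`. So
`∑ X⁴ ≤ 6 ∑ X² (Y + σ/n)`, by Cauchy-Schwarz `∑ X⁴ ≤ 36 ∑ (Y + σ/n)² ≤ 72 (∑ Y² + n! σ²/n²)`, and by TR
`∑ Y² ≤ n! (∑ b⁴/n + σ²/(n (n-1))) ≤ n! (η² σ/n + 2 σ²/n²)`. -/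
def S_X4 : Prop := ∀ n : ℕ, 5 ≤ n → ∀ (b : Fin n → Fin n → ℝ) (η : ℝ), (∀ i j, |b i j| ≤ η) →
  ∑ x : Equiv.Perm (Fin n), (∑ i, b i (x i) - (∑ i, ∑ j, b i j) / n) ^ 4 ≤
    n.factorial * (72 * (η ^ 2 * (∑ i, ∑ j, b i j ^ 2) / n + 3 * (∑ i, ∑ j, b i j ^ 2) ^ 2 / n ^ 2))

/-- **COR** (120 lines, hypothesis `S_TR`).  The correlation of a function of level 1 with its translates.
Proof. `∑_x X x X (x d) = ∑_{i, i'} ∑_x b i (x i) b i' (x (d i'))`. For `i = d i'`: `(N/n) ∑_l b i l b i' l`; for `i ≠ d i'`: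
`(N/(n(n-1))) ∑_{l ≠ l'} b i l b i' l' = -(N/(n(n-1))) ∑_l b i l b i' l` (row sums 0). With the column sums 0:
`∑_{i ≠ d i'} b i l = - b (d i') l`. Total `(N/n)(1 + 1/(n-1)) ∑_{i'} ∑_l b (d i') l b i' l`. -/
def S_COR : Prop := ∀ n : ℕ, 5 ≤ n → ∀ b : Fin n → Fin n → ℝ, (∀ i, ∑ j, b i j = 0) → (∀ j, ∑ i, b i j = 0) → ∀ d : G n,
  ∑ x : G n, (∑ i, b i ((x : Equiv.Perm (Fin n)) i)) * (∑ i, b i (((x * d : G n) : Equiv.Perm (Fin n)) i)) =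
    NN n / ((n : ℝ) - 1) * ∑ i, ∑ l, b ((d : Equiv.Perm (Fin n)) i) l * b i l

/-- **KEY** (150 lines, hypotheses `S_TR S_COR`).  The decomposition of the indicator function `f` of `S`.
Proof. `α = |S|/N`, `b = ((n-1)/n) ab`, `F x = α + ∑ b i (x i)`, `f = F + f2`. (i) By TR
`∑_{x ∈ T i j} F x = (N/n)(α + b i j) + ∑_{i' ≠ i, j' ≠ j} b i' j' N/(n(n-1)) = (N/n)(α + b i j n/(n-1)) = (N/n) aa i j = |S ∩ T i j|`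
(row and column sums of `b` are 0). So `f2` is orthogonal to all functions `∑ g i (x i)`, in particular to `F` and its right translates
(and its translates are orthogonal to `F`), and `∑_x ∑_i b i (x i) = 0`. (ii), (iii): `|S| = ∑ f² = α² N + ∑ X_b² + ∑ f2²` and COR with
`d = 1`. (iv): the same for `∑ f x f (x d)`. -/
def S_KEY : Prop := ∀ n : ℕ, 5 ≤ n → ∀ S : Finset (G n),
  Van (f2 S) ∧ ∑ x, f2 S x ^ 2 ≤ S.card ∧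
  NN n * (((n : ℝ) - 1) / n ^ 2) * ∑ i, ∑ l, ab S i l ^ 2 ≤ S.card ∧
  (∀ i, ∑ l, ab S i l = 0) ∧ (∀ l, ∑ i, ab S i l = 0) ∧
  ∀ d : G n, ((S.filter fun x : G n => x * d ∈ S).card : ℝ) = (S.card : ℝ) ^ 2 / NN n +
    NN n * (((n : ℝ) - 1) / n ^ 2) * ∑ i, ∑ l, ab S ((d : Equiv.Perm (Fin n)) i) l * ab S i l + ∑ x, f2 S x * f2 S (x * d)

/-- **LB** (60 lines, hypotheses `S_DC S_CNT`).  First consequences of `Bad`.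
Proof. A label has at most two elements and `lab X ≤ |X|`, so `|D| ≤ 2 lab D < 2 lab (DD i k) ≤ 2 |DD i k|`, and DC. CNT with `d₀ = 1`. -/
def S_LB : Prop := ∀ n : ℕ, 100 ≤ n → (∀ i k : Fin n, i ≠ k → NN n ≤ 170 * n * (DD i k).card) ∧ NN n ≤ 180 * (Der n).card ∧
  ∀ D S : Finset (G n), Bad n D S → (D.card : ℝ) * ((n : ℝ) - 1) ≤ 2 * (Der n).card

/-- **MAIN** (200 lines, hypotheses `S_KEY S_DC S_LB S_BNP S_DRB S_DM1 S_DM2`).  The quadratic inequality.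
Proof. `N = NN n`, `C = Der \ D`, `B i k = ∑_l ab i l ab k l`. The left side of KEY (iv) is 0 for `d ∈ C`; sum over `C`:
`0 = |C| |S|²/N + N (n-1)/n² (∑_{d ∈ Der} ∑_i B (d i) i - ∑_{d ∈ D} ∑_i B (d i) i) + ∑_{d ∈ C} ⟨f2, R_d f2⟩`.
`∑_{d ∈ Der} ∑_i B (d i) i = (|Der|/(n-1)) ∑_i ∑_{k ≠ i} B k i = -(|Der|/(n-1)) ∑_i B i i` (DC, column sums of `ab` are 0) and
`∑_{d ∈ D} ∑_i B (d i) i = (|Der|/(n-1)) ∑_{i,k} mm i k B k i`. Multiply by `n²/(N |Der|)`: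
`(|C|/|Der|) cc² = QQ - (n²/(N |Der|)) ∑_{d ∈ C} ⟨f2, R_d f2⟩`, and `|C|/|Der| ≥ 1 - 2/(n-1)` by LB.
Errors: `V = {w | Van w}` (a submodule, RI and LI), `‖f2‖² ≤ |S| = cc N/n`. BNP (with the natural number `m = ⌈n²/100⌉` from DM1) and
Cauchy-Schwarz: `|∑_{d ∈ D}| ≤ √|D| √(100 N/n²) cc N/n`; DRB with `Δ = Der` (`m = ⌈n³/1000⌉`, DM2):
`|∑_{d ∈ Der}| ≤ √(1000 N |Der|/n³) cc N/n`. With `|D| ≤ 2 |Der|/(n-1) ≤ 2 N/(n-1)`, `N ≤ 180 |Der|` both are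
`≤ 100 N² cc n^(-5/2)`, so the error is at most `K cc/√n`. -/
def S_MAIN : Prop := ∃ (K : ℝ) (n₀ : ℕ), 0 ≤ K ∧ ∀ n : ℕ, n₀ ≤ n → ∀ D S : Finset (G n), Bad n D S →
  (1 - 2 / ((n : ℝ) - 1)) * cc S ^ 2 ≤ QQ D S + K * cc S / Real.sqrt n

/-- **SM** (100 lines, hypotheses `S_TR S_X4`).  The small entries do not contribute.
Proof. `b i j = ab i j` if `aa i j ≤ η`, otherwise 0; `|b| ≤ η`; `σ = ∑ b²`, `m = (∑ b)/n`, `N = |G n|`, `n! = 2 N`.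
`∑_{x ∈ S} (∑ b i (x i) - m) = (N/n) ∑ b i j aa i j - m cc N/n = (N/n) ∑ b (aa - cc/n) = (N/n) σ`. By Hölder (twice Cauchy-Schwarz)
`((N/n) σ)⁴ ≤ |S|³ ∑_{x ∈ S} (..)⁴ ≤ |S|³ ∑_{x : Perm} (..)⁴ ≤ (cc N/n)³ 2 N 72 (η² σ/n + 3 σ²/n²)`, i.e.
`σ⁴ ≤ 144 cc³ σ (η² + 3 σ/n)`. -/
def S_SM : Prop := ∀ n : ℕ, 5 ≤ n → ∀ (S : Finset (G n)) (η : ℝ), cc S / n ≤ η →
  (∑ i, ∑ j, if aa S i j ≤ η then ab S i j ^ 2 else 0) ^ 3 ≤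
    144 * cc S ^ 3 * (η ^ 2 + 3 * (∑ i, ∑ j, if aa S i j ≤ η then ab S i j ^ 2 else 0) / n)

/-- the data for the analysis of the matrices `a = aa S`, `m = mm D` -/
structure Dat (K : ℝ) (n : ℕ) (c : ℝ) (a m : Fin n → Fin n → ℝ) : Prop where
  c1 : 1 ≤ c
  c4 : c ≤ 4
  a0 : ∀ i j, 0 ≤ a i j
  a1 : ∀ i j, a i j ≤ 1
  asum : ∀ L : Finset (Fin n × Fin n), ∑ e ∈ L, a e.1 e.2 ≤ c + (L.card : ℝ) ^ 2 / ((n : ℝ) - 1)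
  a2 : ∑ i, ∑ j, (a i j - c / n) ^ 2 ≤ 5
  m0 : ∀ i k, 0 ≤ m i k
  m1 : ∀ i k, m i k ≤ 1
  md : ∀ i, m i i = 0
  ms : ∀ i k, m i k = m k i
  mrow : ∀ i, ∑ k, m i k ≤ 2
  mI : ∀ I : Finset (Fin n), ∑ i ∈ I, ∑ k ∈ I, m i k ≤ 2 + K * (I.card : ℝ) ^ 4 / n
  small : ∀ η : ℝ, c / n ≤ η → (∑ i, ∑ j, if a i j ≤ η then (a i j - c / n) ^ 2 else 0) ^ 3 ≤
    144 * c ^ 3 * (η ^ 2 + 3 * (∑ i, ∑ j, if a i j ≤ η then (a i j - c / n) ^ 2 else 0) / n)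
  main : (1 - 2 / ((n : ℝ) - 1)) * c ^ 2 ≤ ∑ i, ∑ l, (a i l - c / n) ^ 2 +
    ∑ i, ∑ k, m i k * ∑ l, (a i l - c / n) * (a k l - c / n) + K * c / Real.sqrt n

/-- **HYP** (200 lines, hypotheses `S_TR S_DC S_LB`).
Proof. (2): `|S| ≥ |⋃_{e ∈ L} S ∩ T e| ≥ ∑ |S ∩ T e| - ∑_{e < e'} |T e ∩ T e'|` (Bonferroni; `T i j ∩ T i j' = ∅`) and
`|T e ∩ T e'| ≤ N/(n(n-1))`. (3): `mm i k ≤ (n-1) |DD i k|/|Der| = 1`; `mm i i = 0` as `D` consists of derangements; symmetric as `D⁻¹ = D`.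
(4): the same Bonferroni inequality for the sets `{d ∈ D | d i = k}`, `i ≠ k ∈ I`: two of them meet in at most `N/(n(n-1))` elements, so
`(|Der|/(n-1)) ∑_{I × I} mm ≤ |D| + |I|⁴ N/(n(n-1))`, with `|D| ≤ 2 |Der|/(n-1)`, `N ≤ 180 |Der|`. (5): `∑_k mm i k = (n-1) |D|/|Der|`. -/
def S_HYP : Prop := ∃ K : ℝ, 0 ≤ K ∧ ∀ n : ℕ, 100 ≤ n → ∀ D S : Finset (G n), Bad n D S →
  (∀ i j, 0 ≤ aa S i j ∧ aa S i j ≤ 1) ∧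
  (∀ L : Finset (Fin n × Fin n), ∑ e ∈ L, aa S e.1 e.2 ≤ cc S + (L.card : ℝ) ^ 2 / ((n : ℝ) - 1)) ∧
  (∀ i k, 0 ≤ mm D i k ∧ mm D i k ≤ 1 ∧ mm D i i = 0 ∧ mm D i k = mm D k i) ∧
  (∀ I : Finset (Fin n), ∑ i ∈ I, ∑ k ∈ I, mm D i k ≤ 2 + K * (I.card : ℝ) ^ 4 / n) ∧
  (∀ i, ∑ k, mm D i k ≤ 2) ∧ 1 < cc S

/-- **DA** (100 lines, hypotheses `S_KEY S_MAIN S_SM S_HYP`).
Proof. `∑ ab² ≤ |S| n²/(N (n-1)) = cc n/(n-1)` (KEY iii). The double sum in `QQ` is at most `2 ∑ ab²` (`2 |x y| ≤ x² + y²`, `mm` is symmetric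
with row sums `≤ 2`), so MAIN gives `(1 - 2/(n-1)) cc² ≤ 3 cc n/(n-1) + K cc/√n`, so `cc ≤ 4` for large `n`. The rest is HYP and SM. -/
def S_DA : Prop := ∃ (K : ℝ) (n₀ : ℕ), 0 ≤ K ∧ ∀ n : ℕ, n₀ ≤ n → ∀ D S : Finset (G n), Bad n D S → Dat K n (cc S) (aa S) (mm D)

/-- the large entries -/
noncomputable def LL {n : ℕ} (η : ℝ) (a : Fin n → Fin n → ℝ) : Finset (Fin n × Fin n) := univ.filter fun e => η < a e.1 e.2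

/-- **ST1** (200 lines, pure real analysis).  Only the large entries count.
Proof. Let `b = a - c/n = b_L + b_s` (support in `LL η a`, resp. outside), `σ = ‖b_s‖² ≤ 5`; `small` gives `σ³ ≤ 144 · 64 (η² + 15/n)`.
For two matrices `q(b, b') = ∑ b b' + ∑_{i,k} m i k ∑_l b i l b' k l` has `|q(b, b')| ≤ 3 ‖b‖ ‖b'‖` (Cauchy-Schwarz, row sums of `m` at
most 2, `m` symmetric). So `q(b, b) ≤ q(b_L, b_L) + 6 ‖b_L‖ √σ + 3 σ ≤ q(b_L, b_L) + 6 √5 √σ + 3 σ`, and `q(b_L, b_L)` is at most the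
displayed sum as `0 ≤ b_L ≤ a` on `LL η a` if `c/n ≤ η`. Choose `η` small and then `n` large; `2 c²/(n-1)` and `K c/√n` are small.
The number of large entries: `a - c/n ≥ η/2` on `LL`, so `|LL| (η/2)² ≤ 5`. -/
def S_ST1 : Prop := ∀ K s : ℝ, 0 ≤ K → 0 < s → ∃ (η : ℝ) (n₀ : ℕ), 0 < η ∧ η ≤ 1 / 1000 ∧ ∀ n : ℕ, n₀ ≤ n → ∀ (c : ℝ) (a m : Fin n → Fin n → ℝ),
  Dat K n c a m → c ^ 2 ≤ ∑ e ∈ LL η a, a e.1 e.2 ^ 2 +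
    ∑ e ∈ LL η a, ∑ e' ∈ (LL η a).filter (fun e' => e'.2 = e.2), m e.1 e'.1 * (a e.1 e.2 * a e'.1 e'.2) + s ∧
  ((LL η a).card : ℝ) ≤ 20 / η ^ 2

/-- **ST2** (250 lines, pure real analysis).  The structure of the large entries.
Proof. `L = LL η a`, `A = ∑_L a`, `Θ(e, e') = 1` for `e = e'`, `m e.1 e'.1` for different entries of the same column (recall `m i i = 0`), `0`
for different columns; so the hypothesis is `c² ≤ ∑_{L × L} a a' Θ + s`. By `asum` `A² ≤ c² + s` for `n` large (`|L| ≤ 20/η²`). So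
(1) `∑_{L × L} a a' (1 - Θ) ≤ 2 s` and (2) `A ≥ c - s ≥ 1/2`. Choose `e₀ = (i₀, l) ∈ L` with `∑_{e'} a' (1 - Θ(e₀, e')) ≤ 2 s/A ≤ 4 s`: the
entries of `L` outside the column `l` have the sum `≤ 4 s`. Let `I = {i | (i, l) ∈ L}`, `p i = a i l`, `P = ∑_I p ≥ c - 5 s`. By (1)
`P² - ∑ p² - ∑_{i ≠ k} p i p k m i k ≤ 2 s`. Let `p i₁ ≥ p i₂` be the two largest (if `|I| = 1`, `i₂` is any other index, `p i₂ ≤ η` then, and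
the term `2 p i₁ p i₂` below is absent). By `mI` `∑_{i,k ∈ I} p i p k m i k ≤ p i₁ p i₂ (2 + s)` for large `n`. So
`∑_{i ≠ k} p i p k ≤ p i₁ p i₂ (2 + s) + 2 s`; first `P² ≤ p i₁ P + 3 p i₁ P + 2 s` gives `p i₁ ≥ 1/8`; then (pairs with `i₁`)
`2 p i₁ (P - p i₁) ≤ 2 p i₁ p i₂ + 3 s`, so `P - p i₁ - p i₂ ≤ 12 s` and `p i₁ + p i₂ ≥ c - 17 s ≥ 1 - ε`. Finally (1) gives
`2 p i₁ p i₂ (1 - m i₁ i₂) ≤ 2 s`, so if `p i₂ > 1/1000` then `1 - m i₁ i₂ ≤ 8000 s ≤ ε`. (`s` may be any small positive number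
depending on `ε`.) -/
def S_ST2 : Prop := ∀ ε : ℝ, 0 < ε → ∃ s : ℝ, 0 < s ∧ ∀ K η : ℝ, 0 ≤ K → 0 < η → η ≤ 1 / 1000 → ∃ n₀ : ℕ, ∀ n : ℕ, n₀ ≤ n →
  ∀ (c : ℝ) (a m : Fin n → Fin n → ℝ), Dat K n c a m →
  c ^ 2 ≤ ∑ e ∈ LL η a, a e.1 e.2 ^ 2 +
    ∑ e ∈ LL η a, ∑ e' ∈ (LL η a).filter (fun e' => e'.2 = e.2), m e.1 e'.1 * (a e.1 e.2 * a e'.1 e'.2) + s →
  ((LL η a).card : ℝ) ≤ 20 / η ^ 2 →
  ∃ l i₁ i₂ : Fin n, i₁ ≠ i₂ ∧ 1 - ε ≤ a i₁ l + a i₂ l ∧ (a i₂ l ≤ 1 / 1000 ∨ 1 - ε ≤ m i₁ i₂)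

/-- **CA** (180 lines, hypotheses `S_TR S_DC S_LB`).  `S` is not close to one `T i l`.
Proof. `N = |G n|`, `H = T i l`, `|H| = N/n`, `X = S \ H`. Suppose `|H \ S| < |H|/400`. As `n |S| > N = n |H|`, `|X| > |H \ S|`. For `x ∈ X` let
`k = x⁻¹ l ≠ i`; for `d ∈ Der \ D` with `d i = k`: `x d ∈ H \ S`. Let `X_k = {x ∈ X | x k = l}`, `R_k = DD i k \ D`: if both are not empty,
`|H \ S| ≥ max (|X_k|, |R_k|)`. `R_k ≠ ∅` always: otherwise `DD i k ⊆ D`, `lab D ≥ lab (DD i k)`. If `X = X_k` for one `k`: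
`|H \ S| ≥ |X|`, a contradiction. If `X_k, X_k' ≠ ∅`, `k ≠ k'`: let `U = D ∩ (DD i k ∪ DD i k')`. `|U| ≤ lab U + #{d ∈ U | d⁻¹ ∈ U}` (a label
with two elements in `U` consists of two such elements) `≤ lab D + 4 N/(n(n-1))` (`d i ∈ {k, k'}`, `d q = i`, `q ∈ {k, k'}`: four sets
`T i p ∩ T q i`), and `lab D < lab (DD i k) ≤ |DD i k|`, so `|R_k| + |R_k'| = 2 |DD i k| - |U| ≥ |DD i k| - 4 N/(n(n-1)) ≥ N/(200 n)` by LB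
for large `n` (`|DD i k| = |DD i k'|` by DC), so `|H \ S| ≥ N/(400 n)`, a contradiction. -/
def S_CA : Prop := ∃ n₀ : ℕ, ∀ n : ℕ, n₀ ≤ n → ∀ D S : Finset (G n), Bad n D S → ∀ i l : Fin n, aa S i l ≤ 1 - 1 / 400

/-- **CB** (220 lines, hypotheses `S_TR S_DC S_CNT S_LB`).  The case of two rows.
Proof. `T₁ = T i₁ l`, `T₂ = T i₂ l` (disjoint, `N/n` elements each), `S₁ = S ∩ T₁`, `S₂ = S ∩ T₂`, `|S₁| + |S₂| ≥ (1 - ε) N/n`. There is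
`d₀ ∈ DD i₁ i₂ \ D` (labels). For `x ∈ S₂`: `(x d₀) i₁ = x i₂ = l`, so `x d₀ ∈ T₁ \ S`: `S₂ d₀ ⊆ T₁ \ S₁`, `|S₁| + |S₂| ≤ |T₁| = N/n`. As
`n |S| > N` there is `y ∈ S`, `y ∉ T₁ ∪ T₂`; `k = y⁻¹ l ∉ {i₁, i₂}`. By `mm D i₁ i₂ ≥ 1 - ε` (and symmetry)
`|D ∩ DD i₁ i₂|, |D ∩ DD i₂ i₁| ≥ (1 - ε) |Der|/(n-1)`, `|D| ≤ 2 |Der|/(n-1)`, and the pairwise intersections of the sets `DD` have at most
`N/(n(n-1))` elements, so `|D ∩ DD i₁ k|, |D ∩ DD i₂ k| ≤ 2 ε |Der|/(n-1) + 2 N/(n(n-1)) ≤ 3 ε N/n` for large `n`. By CNT (`d₀ i₁ = i₂ ≠ k`) the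
set `Z` of the `r ∈ DD i₁ k` such that `r d₀⁻¹` is a derangement (`r x ≠ d₀ x` for all `x`) has at least `N/(170 n)` elements. For `r ∈ Z` with
`r ∉ D`, `r d₀⁻¹ ∉ D` (`r d₀⁻¹ ∈ DD i₂ k`): `y r ∈ T₁ \ S`, `y r d₀⁻¹ ∉ S`, so `y r ∈ T₁ \ (S₁ ∪ S₂ d₀)`, a set of
`N/n - |S₁| - |S₂| ≤ ε N/n` elements. So `N/(170 n) ≤ 7 ε N/n`, a contradiction for `ε = 1/2000`. -/
def S_CB : Prop := ∃ n₀ : ℕ, ∀ n : ℕ, n₀ ≤ n → ∀ D S : Finset (G n), Bad n D S → ∀ l i₁ i₂ : Fin n, i₁ ≠ i₂ →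
  1 - 1 / 2000 ≤ aa S i₁ l + aa S i₂ l → 1 - 1 / 2000 ≤ mm D i₁ i₂ → False

/-- **END** (40 lines; helper19). -/
def S_END : Prop := ∃ n₀ : ℕ, ∀ n : ℕ, n₀ ≤ n → ∀ D S : Finset (G n), ¬ Bad n D S

theorem t_END (h1 : S_DA) (h2 : S_ST1) (h3 : S_ST2) (h4 : S_CA) (h5 : S_CB) : S_END := by
  obtain ⟨K, n1, hK, H1⟩ := h1
  obtain ⟨s, hs, H3⟩ := h3 (1 / 2000) (by norm_num)
  obtain ⟨η, n2, hη, hη1, H2⟩ := h2 K s hK hs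
  obtain ⟨n3, H3⟩ := H3 K η hK hη hη1
  obtain ⟨n4, H4⟩ := h4
  obtain ⟨n5, H5⟩ := h5
  refine ⟨n1 + n2 + n3 + n4 + n5, fun n hn D S hB => ?_⟩
  have hd := H1 n (by omega) D S hB
  obtain ⟨e1, e2⟩ := H2 n (by omega) _ _ _ hd
  obtain ⟨l, i1, i2, hne, q1, q2⟩ := H3 n (by omega) _ _ _ hd e1 e2
  have q3 := H4 n (by omega) D S hB i1 l
  rcases q2 with q2 | q2
  · norm_num at q1 q2 q3
    linarith
  · exact H5 n (by omega) D S hB l i1 i2 hne q1 q2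

end V5helper19.ER
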